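import Pool.Agent.H43.TP.Lang

/-!
# The classes P and coNP
-/

set_option autoImplicit false

namespace Pool.Agent.H43.TP

open Pool.Agent.H83 Turing

/-- `L` is in P: decided by a Turing machine in polynomial time. -/
def InP (L : Set (List Bool)) : Prop :=
  ∃ V : List Bool → Bool,
    Nonempty (TM2ComputableInPolyTime (id : List Bool → List Bool) Computability.encodeBool V) ∧
    ∀ x, x ∈ L ↔ V x = true

/-- `L` is in coNP: its complement is in NP. -/
def InCoNP (L : Set (List Bool)) : Prop := InNP Lᶜ

/-- `A` is coNP-complete. -/
def CoNPComplete (A : Set (List Bool)) : Prop := InCoNP A ∧ CoNPHard A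

end Pool.Agent.H43.TP
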