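import Pool.Agent.H43.TPC.SIM
import Pool.Agent.H43.TPC.Classes
import Pool.Agent.H43.TPM.NPT
import Pool.Agent.H43.TPM.VPO

/-!
# Closure properties of P and NP

PROOF. `polyTimeFun_iff`: `poly_of_tm2` (`ea = id`: `Poly ((·).map φ)` for `φ : Bool → ℕ`: `Poly.map`, `Poly.cond`) and `Poly.toTM2`.
`inP_iff`: `poly_of_tm2` with `eb = encodeBool` gives `Poly (fun x => [V x])`, then `Poly.headD`; conversely as in
`inNP_of_poly` (`Poly.toTM2` for `fun x => [V x]`, `encodeBool b = [b]`).
`inNP_iff`: `ea = pairWord` on `List Bool × List Bool`: `(pairWord (x, y)).map φ = x.map (φ ∘ inl) ++ y.map (φ ∘ inr)`.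
`InNP.preimage`: let `V, q` be a `Poly` verifier for `A` (`inNP_iff`). `{x | f x ∈ A}`: tree certificates (`inNP_of_tree`): `t` is a list of digits
`y = toBits t` (`toBits`, `toL` from `VDef`; `toL_poly` etc. from `VPO`), verifier `decide (y.length = q.eval (f x).length) && V (f x, y)`; a list
of digits `y` is `toBits` of a tree of size `≤ 4 * y.length + 1`; `(f x).length ≤ sz (f x) ≤ g (sz x)`, `sz x ≤ 4 * x.length + 1`, `g` polynomially
bounded (`Poly.size_le`), so the certificate size is bounded by a polynomial in `x.length` (compose polynomials; `eval_mono`).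
`InP.inNP`: certificates are ignored (`q = 0`).
-/

set_option autoImplicit false

namespace Pool.Agent.H43.TP

open Pool.Agent.H83

private theorem CLO_bmap {α : Type} [Enc α] {l : α → List Bool} (hl : Poly l) (φ : Bool → ℕ) :
    Poly (fun a => (l a).map φ) := by
  refine H83.Poly.map (f := fun _ b => φ b) hl ?_
  refine (Poly.cond (c := fun p : α × Bool => p.2) Poly.snd (H83.Poly.const (φ true))
    (H83.Poly.const (φ false))).congr ?_
  rintro ⟨a, b⟩
  cases b <;> rfl

private theorem CLO_size (y : List Bool) : (Enc.enc y).size ≤ 4 * y.length + 1 := by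
  have : ∀ y : List Bool, sz y ≤ 4 * y.length + 1 := by
    intro y
    induction y with
    | nil => simp
    | cons b l ih =>
      have := Poly.sz_bool b
      rw [Poly.sz_cons, List.length_cons]
      omega
  exact this y

private theorem CLO_bits (y : List Bool) : toBits (Enc.enc y) = y := by
  have key : ∀ y : List Bool, toL (Enc.enc y) = y.map (fun b => Enc.enc b) := by
    intro y
    induction y with
    | nil => rfl
    | cons b l ih =>
      show toL (T.node (Enc.enc b) (Enc.enc l)) = _
      rw [toL, ih, List.map_cons]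
  unfold toBits
  rw [key, List.map_map]
  have e : ((fun u => !(toL u).isEmpty) ∘ fun b : Bool => Enc.enc b) = id := by
    funext b
    cases b <;> rfl
  rw [e, List.map_id]

theorem polyTimeFun_iff (f : List Bool → List Bool) : PolyTimeFun f ↔ Poly f := by
  constructor
  · rintro ⟨c⟩
    exact poly_of_tm2 (id : List Bool → List Bool) (id : List Bool → List Bool) f
      (fun φ => CLO_bmap (l := fun a => a) Poly.id φ) c
  · intro h
    exact Poly.toTM2 h

theorem inP_iff (L : Set (List Bool)) :
    InP L ↔ ∃ V : List Bool → Bool, Poly V ∧ ∀ x, x ∈ L ↔ V x = true := by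
  constructor
  · rintro ⟨V, ⟨c⟩, h⟩
    refine ⟨V, ?_, h⟩
    have h1 := poly_of_tm2 (id : List Bool → List Bool) Computability.encodeBool V
      (fun φ => CLO_bmap (l := fun a => a) Poly.id φ) c
    exact (Poly.headD false h1).congr fun _ => rfl
  · rintro ⟨V, hV, h⟩
    refine ⟨V, ?_, h⟩
    obtain ⟨c⟩ := Poly.toTM2 (f := fun x : List Bool => [V x])
      (Poly.cons hV (H83.Poly.const []))
    exact ⟨{ c.toTM2ComputableAux with
      time := c.time
      outputsFun := fun x => c.outputsFun x }⟩

theorem inNP_iff (L : Set (List Bool)) :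
    InNP L ↔ ∃ (q : Polynomial ℕ) (V : List Bool × List Bool → Bool), Poly V ∧
      ∀ x, x ∈ L ↔ ∃ y : List Bool, y.length = q.eval x.length ∧ V (x, y) = true := by
  constructor
  · rintro ⟨q, V, ⟨c⟩, h⟩
    refine ⟨q, V, ?_, h⟩
    have h1 := poly_of_tm2 pairWord Computability.encodeBool V (fun φ => by
      refine (Poly.append (CLO_bmap (l := fun p : List Bool × List Bool => p.1) Poly.fst
        (fun b => φ (Sum.inl b))) (CLO_bmap (l := fun p : List Bool × List Bool => p.2) Poly.snd
        (fun b => φ (Sum.inr b)))).congr ?_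
      rintro ⟨x, y⟩
      simp [pairWord, Function.comp_def]) c
    exact (Poly.headD false h1).congr fun _ => rfl
  · rintro ⟨q, V, hV, h⟩
    exact inNP_of_poly q V hV h

theorem InP.compl {L : Set (List Bool)} (h : InP L) : InP Lᶜ := by
  rw [inP_iff] at h ⊢
  obtain ⟨V, hV, h⟩ := h
  refine ⟨fun x => !(V x), Poly.not hV, fun x => ?_⟩
  rw [Set.mem_compl_iff, h x]
  cases hb : V x <;> simp [hb]

theorem InP.inNP {L : Set (List Bool)} (h : InP L) : InNP L := by
  rw [inP_iff] at h
  obtain ⟨V, hV, h⟩ := h
  rw [inNP_iff]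
  refine ⟨0, fun p => V p.1, hV.comp Poly.fst, fun x => ?_⟩
  rw [h x]
  constructor
  · intro hx
    exact ⟨[], by simp, hx⟩
  · rintro ⟨y, _, hy⟩
    exact hy

theorem InP.preimage {A : Set (List Bool)} (h : InP A) {f : List Bool → List Bool}
    (hf : PolyTimeFun f) : InP {x | f x ∈ A} := by
  rw [inP_iff] at h ⊢
  obtain ⟨V, hV, h⟩ := h
  exact ⟨fun x => V (f x), hV.comp ((polyTimeFun_iff f).1 hf), fun x => h (f x)⟩

theorem InNP.preimage {A : Set (List Bool)} (h : InNP A) {f : List Bool → List Bool}
    (hf : PolyTimeFun f) : InNP {x | f x ∈ A} := by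
  rw [inNP_iff] at h
  obtain ⟨q, V, hV, h⟩ := h
  rw [polyTimeFun_iff] at hf
  obtain ⟨g, ⟨p, hp⟩, hgm, hfg⟩ := hf.size_le
  refine inNP_of_tree (Polynomial.C 4 * q.comp (p.comp (Polynomial.C 4 * Polynomial.X +
    Polynomial.C 1)) + Polynomial.C 1) (fun z => decide ((toBits z.2).length =
      q.eval (f z.1).length) && V (f z.1, toBits z.2)) ?_ ?_
  · exact Poly.and (Poly.natEq (Poly.length (toBits_poly Poly.snd))
      (Poly.polyEval q (Poly.length (hf.comp Poly.fst))))
      (hV.comp ((hf.comp Poly.fst).pair (toBits_poly Poly.snd)))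
  · intro x
    rw [Set.mem_ofPred_eq, h (f x)]
    constructor
    · rintro ⟨y, hy, hVy⟩
      refine ⟨Enc.enc y, ?_, ?_⟩
      · refine (CLO_size y).trans ?_
        have h1 : (f x).length ≤ p.eval (4 * x.length + 1) := by
          refine (Poly.length_le_sz (f x)).trans ((hfg x).trans ?_)
          refine (hp _).trans (eval_mono p ?_)
          exact CLO_size x
        have h2 := eval_mono q h1
        simp only [Polynomial.eval_add, Polynomial.eval_mul, Polynomial.eval_C,
          Polynomial.eval_comp, Polynomial.eval_X]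
        rw [hy]
        omega
      · simp only [CLO_bits, hVy, Bool.and_true, decide_eq_true_eq]
        exact hy
    · rintro ⟨t, _, ht⟩
      simp only [Bool.and_eq_true, decide_eq_true_eq] at ht
      exact ⟨toBits t, ht.1, ht.2⟩

end Pool.Agent.H43.TP
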