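import Pool.Agent.H43.TPC.CLO
import Pool.Agent.H43.TPM.MEM
import Pool.Agent.H43.TP.FIN

/-!
# T-PERF is coNP-complete, and the consequences
-/

set_option autoImplicit false

namespace Pool.Agent.H43.TP

open Pool.Agent.H83

theorem coNPComplete : CoNPComplete TPERF := ⟨inNP_compl, coNPHard⟩

theorem inNP_iff_NP_eq_coNP : InNP TPERF ↔ ∀ L, InNP L ↔ InCoNP L := by
  constructor
  · intro h
    have key : ∀ L, InNP L → InNP Lᶜ := by
      intro L hL
      obtain ⟨f, hf, hfx⟩ := npHard_compl L hL
      have h1 := InNP.preimage h hf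
      have e : {x | f x ∈ TPERF} = Lᶜ := by
        ext x
        rw [Set.mem_ofPred_eq, Set.mem_compl_iff, hfx x, Set.mem_compl_iff, not_not]
      rwa [e] at h1
    intro L
    refine ⟨key L, fun hL => ?_⟩
    have := key Lᶜ hL
    rwa [compl_compl] at this
  · intro h
    exact (h TPERF).2 inNP_compl

theorem inP_iff_P_eq_NP : InP TPERF ↔ ∀ L, InP L ↔ InNP L := by
  constructor
  · intro h L
    refine ⟨fun hL => hL.inNP, fun hL => ?_⟩
    obtain ⟨f, hf, hfx⟩ := npHard_compl L hL
    have h1 := h.compl.preimage hf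
    have e : {x | f x ∈ TPERFᶜ} = L := by
      ext x
      rw [Set.mem_ofPred_eq, hfx x]
    rwa [e] at h1
  · intro h
    have := ((h TPERFᶜ).2 inNP_compl).compl
    rwa [compl_compl] at this

end Pool.Agent.H43.TP
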