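import Pool.Agent.H83.CookLevin
import Pool.Agent.H83.Verif

/-!
# `Poly` functions simulate Turing machines

PROOF of `sim_core`. As in `cook_levin_core` (`Pool/Agent/H83/CookLevin.lean`) let `D` bound `depth (M l)`, `LQ`, `LX` lists of the
finite sets `CtlSet M`, `CellSet M k₀`, `cc q = LQ.idxOf q`, `cx a = LX.idxOf a`. A micro
configuration `c` is represented by `(cc c.ctl, cs)`, where the entry `i` of `cs : List ℕ` is `cx (cell c.stk i)`; one micro step
acts on the list of cell numbers by finite tables. The output is read from the cells.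
-/

set_option autoImplicit false

namespace Pool.Agent.H43.TP

open Pool.Agent.H83 Turing TM2 Micro

/-- Every function agrees on a finite list of keys with a bounded `Poly` function. -/
theorem exists_table (L : List (ℕ × ℕ × ℕ × ℕ)) (F : ℕ × ℕ × ℕ × ℕ → ℕ) (C : ℕ)
    (hC : ∀ p, F p ≤ C) : ∃ G : ℕ × ℕ × ℕ × ℕ → ℕ, Poly G ∧ (∀ p ∈ L, G p = F p) ∧
      ∀ p, G p ≤ C := by
  induction L with
  | nil => exact ⟨fun _ => 0, H83.Poly.const 0, by simp, by simp⟩
  | cons k L ih =>
    obtain ⟨G, hG, h1, h2⟩ := ih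
    refine ⟨fun p => bif (decide (p.1 = k.1) && (decide (p.2.1 = k.2.1) &&
      (decide (p.2.2.1 = k.2.2.1) && decide (p.2.2.2 = k.2.2.2)))) then F k else G p, ?_, ?_, ?_⟩
    · exact Poly.cond (Poly.and (Poly.natEq Poly.fst (H83.Poly.const _)) (Poly.and
        (Poly.natEq (Poly.fst' Poly.snd) (H83.Poly.const _)) (Poly.and
        (Poly.natEq (Poly.fst' (Poly.snd' Poly.snd)) (H83.Poly.const _))
        (Poly.natEq (Poly.snd' (Poly.snd' Poly.snd)) (H83.Poly.const _))))) (H83.Poly.const _) hG
    · intro p hp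
      by_cases hk : p = k
      · subst hk; simp
      · have : (decide (p.1 = k.1) && (decide (p.2.1 = k.2.1) &&
            (decide (p.2.2.1 = k.2.2.1) && decide (p.2.2.2 = k.2.2.2)))) = false := by
          by_contra hcon
          simp only [Bool.not_eq_false, Bool.and_eq_true, decide_eq_true_eq] at hcon
          exact hk (Prod.ext hcon.1 (Prod.ext hcon.2.1 (Prod.ext hcon.2.2.1 hcon.2.2.2)))
        beta_reduce
        rw [this]
        rcases List.mem_cons.1 hp with h | h
        · exact absurd h hk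
        · exact h1 p h
    · intro p
      beta_reduce
      cases (decide (p.1 = k.1) && (decide (p.2.1 = k.2.1) &&
          (decide (p.2.2.1 = k.2.2.1) && decide (p.2.2.2 = k.2.2.2)))) with
      | true => exact hC k
      | false => exact h2 p

/-- All keys below `B`. -/
def keys (B : ℕ) : List (ℕ × ℕ × ℕ × ℕ) :=
  (List.range B).flatMap (fun x => (List.range B).flatMap (fun y => (List.range B).flatMap
    (fun z => (List.range B).map (fun u => (x, y, z, u)))))

theorem mem_keys {B x y z u : ℕ} (hx : x < B) (hy : y < B) (hz : z < B) (hu : u < B) :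
    (x, y, z, u) ∈ keys B := by
  simp only [keys, List.mem_flatMap, List.mem_range, List.mem_map, Prod.mk.injEq]
  exact ⟨x, hx, y, hy, z, hz, u, hu, rfl, rfl, rfl, rfl⟩

/-- Entry of a list of numbers. -/
def gt (bl : ℕ) (cs : List ℕ) (i : ℕ) : ℕ := (cs.drop i).headD bl

theorem gt_eq (bl : ℕ) (cs : List ℕ) (i : ℕ) : gt bl cs i = (cs[i]?).getD bl := by
  unfold gt
  by_cases h : i < cs.length
  · rw [List.drop_eq_getElem_cons h]; simp [h]
  · rw [List.drop_eq_nil_of_le (by omega), List.getElem?_eq_none (by omega)]; rfl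

/-- One step on lists of cell numbers. -/
def stp (GC G0 G1 : ℕ × ℕ × ℕ × ℕ → ℕ) (bl : ℕ) (s : ℕ × List ℕ) : ℕ × List ℕ :=
  (GC (s.1, gt bl s.2 0, 0, 0), (List.range (s.2.length + 1)).map (fun i =>
    bif decide (i = 0) then G0 (s.1, gt bl s.2 0, gt bl s.2 1, 0)
    else G1 (s.1, gt bl s.2 (i - 1), gt bl s.2 i, gt bl s.2 (i + 1))))

theorem gt_poly {α : Type} [Enc α] {cs : α → List ℕ} {i : α → ℕ} (bl : ℕ) (hcs : Poly cs)
    (hi : Poly i) : Poly (fun a => gt bl (cs a) (i a)) :=
  Poly.headD bl (Tableau.drop_poly hcs hi)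

theorem stp_poly {GC G0 G1 : ℕ × ℕ × ℕ × ℕ → ℕ} (hC : Poly GC) (h0 : Poly G0) (h1 : Poly G1)
    (bl : ℕ) : Poly (stp GC G0 G1 bl) := by
  unfold stp
  refine Poly.pair (hC.comp (Poly.fst.pair ((gt_poly bl Poly.snd (H83.Poly.const 0)).pair
    ((H83.Poly.const 0).pair (H83.Poly.const 0))))) ?_
  refine H83.Poly.map (Poly.range (Poly.succ (Poly.length Poly.snd))) ?_
  have hs2 : Poly (fun p : (ℕ × List ℕ) × ℕ => p.1.2) := Poly.snd' Poly.fst
  have hs1 : Poly (fun p : (ℕ × List ℕ) × ℕ => p.1.1) := Poly.fst' Poly.fst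
  have hi : Poly (fun p : (ℕ × List ℕ) × ℕ => p.2) := Poly.snd
  refine Poly.cond (Poly.natEq hi (H83.Poly.const 0)) ?_ ?_
  · exact h0.comp (hs1.pair ((gt_poly bl hs2 (H83.Poly.const 0)).pair
      ((gt_poly bl hs2 (H83.Poly.const 1)).pair (H83.Poly.const 0))))
  · exact h1.comp (hs1.pair ((gt_poly bl hs2 (Poly.pred hi)).pair
      ((gt_poly bl hs2 hi).pair (gt_poly bl hs2 (Poly.succ hi)))))

theorem sz_le_of_bound (C : ℕ) (l : List ℕ) (h : ∀ x ∈ l, x ≤ C) :
    sz l ≤ l.length * (2 * C + 2) + 1 := by
  induction l with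
  | nil => simp
  | cons x l ih =>
    have h1 := ih (fun y hy => h y (List.mem_cons_of_mem _ hy))
    have h2 := h x List.mem_cons_self
    simp only [Poly.sz_cons, Poly.sz_nat, List.length_cons]
    rw [Nat.add_mul]
    omega

theorem flatMap_getElem? {γ : Type} (out : γ → Bool) (l : List γ) : ∀ n, l.length ≤ n →
    (List.range n).flatMap (fun i => match l[i]? with | some s => [out s] | none => []) =
      l.map out := by
  induction l with
  | nil => intro n _; simp
  | cons s l ih =>
    intro n hn
    obtain ⟨n, rfl⟩ : ∃ n', n = n' + 1 := ⟨n - 1, by simp at hn; omega⟩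
    rw [List.range_succ_eq_map, List.flatMap_cons, List.flatMap_map]
    have := ih n (by simpa using hn)
    simp only [List.getElem?_cons_succ, List.getElem?_cons_zero, List.map_cons]
    rw [this]
    rfl

section core

variable {K : Type} [DecidableEq K] {Γ : K → Type} {Λ σ : Type}

/-- `(q, cs)` represents the configuration `c`. -/
def Rep (cc : Ctl Γ Λ σ → ℕ) (cx : Cell Γ → ℕ) (c : UCfg Γ Λ σ) (s : ℕ × List ℕ) : Prop :=
  s.1 = cc c.ctl ∧ (∀ i, gt (cx (fun _ => none)) s.2 i = cx (cell c.stk i)) ∧
    ∀ k, (c.stk k).length ≤ s.2.length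

theorem rep_step (M : Λ → Stmt Γ Λ σ) (k₀ : K) (cc : Ctl Γ Λ σ → ℕ) (cx : Cell Γ → ℕ)
    (GC G0 G1 : ℕ × ℕ × ℕ × ℕ → ℕ)
    (hC : ∀ q ∈ CtlSet M, ∀ a ∈ CellSet M k₀,
      GC (cc q, cx a, 0, 0) = cc (nextCtl M q a))
    (h0 : ∀ q ∈ CtlSet M, ∀ a ∈ CellSet M k₀, ∀ b ∈ CellSet M k₀,
      G0 (cc q, cx a, cx b, 0) = cx (next0 q a b))
    (h1 : ∀ q ∈ CtlSet M, ∀ l ∈ CellSet M k₀, ∀ a ∈ CellSet M k₀, ∀ r ∈ CellSet M k₀,
      G1 (cc q, cx l, cx a, cx r) = cx (next1 q l a r))
    (c : UCfg Γ Λ σ) (hc : Good M k₀ c) (s : ℕ × List ℕ) (hs : Rep cc cx c s) :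
    Rep cc cx (ustep M c) (stp GC G0 G1 (cx (fun _ => none)) s) := by
  obtain ⟨e1, e2, e3⟩ := hs
  refine ⟨?_, ?_, ?_⟩
  · change GC (s.1, gt _ s.2 0, 0, 0) = cc (nextCtl M c.ctl (cell c.stk 0))
    rw [e1, e2, hC _ hc.1 _ (hc.2 0)]
  · intro i
    rw [gt_eq]
    change (((List.range (s.2.length + 1)).map _)[i]?).getD _ = cx (cell (nextStk c.ctl c.stk) i)
    by_cases hi : i < s.2.length + 1
    · rw [List.getElem?_map, List.getElem?_range hi]
      simp only [Option.map_some, Option.getD_some]
      cases i with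
      | zero =>
        simp only [decide_true, cond_true]
        rw [e1, e2, e2, h0 _ hc.1 _ (hc.2 0) _ (hc.2 1), cell_nextStk_zero]
      | succ i =>
        simp only [Nat.add_eq_zero_iff, one_ne_zero, and_false, decide_false, cond_false,
          Nat.add_sub_cancel]
        rw [e1, e2, e2, e2, h1 _ hc.1 _ (hc.2 _) _ (hc.2 _) _ (hc.2 _), cell_nextStk_succ]
    · rw [List.getElem?_eq_none (by simpa using hi)]
      simp only [Option.getD_none]
      congr 1
      funext k
      change none = (nextStk c.ctl c.stk k)[i]?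
      have h2 := height_nextStk c.ctl c.stk k
      have h3 := e3 k
      rw [List.getElem?_eq_none (by omega)]
  · intro k
    have h2 := height_nextStk c.ctl c.stk k
    have h3 := e3 k
    change (nextStk c.ctl c.stk k).length ≤ ((List.range (s.2.length + 1)).map _).length
    rw [List.length_map, List.length_range]
    omega

theorem sim_core [Finite K] [Finite Λ]
    [Finite σ] (M : Λ → Stmt Γ Λ σ) (k₀ k₁ : K) [Finite (Γ k₀)] (main : Λ) (v₀ : σ)
    {α : Type} [Enc α] (inp : α → List (Γ k₀))
    (hinp : ∀ φ : Γ k₀ → ℕ, Poly (fun a => (inp a).map φ)) (out : Γ k₁ → Bool)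
    (res : α → List (Γ k₁)) (time : Polynomial ℕ)
    (hM : ∀ a, ∃ t ≤ time.eval (inp a).length, ∃ (v' : σ) (S' : ∀ k, List (Γ k)),
      (flip bind (step M))^[t] (some ⟨some main, v₀,
        Function.update (fun _ => []) k₀ (inp a)⟩) = some ⟨none, v', S'⟩ ∧ S' k₁ = res a) :
    Poly (fun a => (res a).map out) := by
  classical
  obtain ⟨D, hD⟩ : ∃ D, ∀ l, depth (M l) ≤ D := by
    have : Fintype Λ := Fintype.ofFinite _
    exact ⟨∑ l, depth (M l), fun l => Finset.single_le_sum (f := fun l => depth (M l))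
      (fun _ _ => Nat.zero_le _) (Finset.mem_univ l)⟩
  set LQ : List (Ctl Γ Λ σ) := (ctlSet_finite M).toFinset.toList with hLQdef
  set LX : List (Cell Γ) := (cellSet_finite M k₀).toFinset.toList with hLXdef
  have hLQ : ∀ q, q ∈ LQ ↔ q ∈ CtlSet M := fun q => by simp [hLQdef]
  have hLX : ∀ a, a ∈ LX ↔ a ∈ CellSet M k₀ := fun a => by simp [hLXdef]
  set cc : Ctl Γ Λ σ → ℕ := fun q => LQ.idxOf q with hcc
  set cx : Cell Γ → ℕ := fun a => LX.idxOf a with hcx
  -- decoding
  have hdq : ∀ q ∈ CtlSet M, LQ[cc q]? = some q := by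
    intro q hq
    rw [List.getElem?_eq_getElem (List.idxOf_lt_length_iff.2 ((hLQ q).2 hq))]
    simp [hcc]
  have hdx : ∀ a ∈ CellSet M k₀, LX[cx a]? = some a := by
    intro a ha
    rw [List.getElem?_eq_getElem (List.idxOf_lt_length_iff.2 ((hLX a).2 ha))]
    simp [hcx]
  set Bd := LQ.length + LX.length + 1 with hBd
  have hccB : ∀ q, cc q ≤ LQ.length := fun q => List.idxOf_le_length
  have hcxB : ∀ a, cx a ≤ LX.length := fun a => List.idxOf_le_length
  -- the tables
  obtain ⟨GC, hGC, gc1, gc2⟩ := exists_table (keys Bd) (fun p => match LQ[p.1]?, LX[p.2.1]? with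
    | some q, some a => cc (nextCtl M q a)
    | _, _ => 0) Bd (by
      intro p
      beta_reduce
      split
      · exact (hccB _).trans (by omega)
      · exact Nat.zero_le _)
  obtain ⟨G0, hG0, g01, g02⟩ := exists_table (keys Bd)
    (fun p => match LQ[p.1]?, LX[p.2.1]?, LX[p.2.2.1]? with
    | some q, some a, some b => cx (next0 q a b)
    | _, _, _ => 0) Bd (by
      intro p
      beta_reduce
      split
      · exact (hcxB _).trans (by omega)
      · exact Nat.zero_le _)
  obtain ⟨G1, hG1, g11, g12⟩ := exists_table (keys Bd)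
    (fun p => match LQ[p.1]?, LX[p.2.1]?, LX[p.2.2.1]?, LX[p.2.2.2]? with
    | some q, some l, some a, some r => cx (next1 q l a r)
    | _, _, _, _ => 0) Bd (by
      intro p
      beta_reduce
      split
      · exact (hcxB _).trans (by omega)
      · exact Nat.zero_le _)
  obtain ⟨H1, hH1, h11, h12⟩ := exists_table (keys Bd)
    (fun p => match LX[p.1]? with
    | some a => if (a k₁).isSome then 1 else 0
    | _ => 0) 1 (by
      intro p
      beta_reduce
      split
      · split <;> omega
      · omega)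
  obtain ⟨H2, hH2, h21, h22⟩ := exists_table (keys Bd)
    (fun p => match LX[p.1]? with
    | some a => (match a k₁ with | some s => if out s then 1 else 0 | none => 0)
    | _ => 0) 1 (by
      intro p
      beta_reduce
      split
      · split
        · split <;> omega
        · omega
      · omega)
  have k1 : ∀ q ∈ CtlSet M, cc q < Bd := fun q _ => by have := hccB q; omega
  have k2 : ∀ a, cx a < Bd := fun a => by have := hcxB a; omega
  have k0 : 0 < Bd := by omega
  set bl := cx (fun _ => none) with hbl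
  set F := stp GC G0 G1 bl with hF
  -- start
  set inC : Option (Γ k₀) → Cell Γ := fun o => Function.update (fun _ => none) k₀ o with hinC
  set st : α → ℕ × List ℕ := fun a => (cc (M main, v₀), (inp a).map (fun s => cx (inC (some s))))
    with hst
  have hstP : Poly st := (H83.Poly.const _).pair (hinp _)
  set c0 : α → UCfg Γ Λ σ := fun a => ⟨(M main, v₀), Function.update (fun _ => []) k₀ (inp a)⟩
    with hc0
  have hblank : inC none = fun _ => none := by
    funext k
    by_cases h : k = k₀
    · subst h; simp [hinC]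
    · simp [hinC, Function.update_of_ne h]
  have hgood : ∀ a, Good M k₀ (c0 a) := by
    intro a
    refine ⟨Or.inr ⟨main, stmts₁_self⟩, fun i => ?_⟩
    rw [hc0, cell_update_nil]
    intro k s hk
    by_cases h : k = k₀
    · exact Or.inl h
    · simp [Function.update_of_ne h] at hk
  have hrep0 : ∀ a, Rep cc cx (c0 a) (st a) := by
    intro a
    refine ⟨rfl, ?_, ?_⟩
    · intro i
      rw [gt_eq, hc0, cell_update_nil]
      change (((inp a).map (fun s => cx (inC (some s))))[i]?).getD _ = cx (inC (inp a)[i]?)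
      rw [List.getElem?_map]
      cases (inp a)[i]? with
      | none => simp only [Option.map_none, Option.getD_none]; rw [hblank]
      | some s => rfl
    · intro k
      simp only [hc0, hst, List.length_map]
      by_cases h : k = k₀
      · subst h; simp
      · simp [Function.update_of_ne h]
  have hrep : ∀ a n, Rep cc cx ((ustep M)^[n] (c0 a)) (F^[n] (st a)) := by
    intro a n
    induction n with
    | zero => exact hrep0 a
    | succ n ih =>
      rw [Function.iterate_succ_apply', Function.iterate_succ_apply']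
      refine rep_step M k₀ cc cx GC G0 G1 ?_ ?_ ?_ _ (good_iterate (hgood a) n) _ ih
      · intro q hq b hb
        rw [gc1 _ (mem_keys (k1 q hq) (k2 b) k0 k0)]
        simp only [hdq q hq, hdx b hb]
      · intro q hq b hb b' hb'
        rw [g01 _ (mem_keys (k1 q hq) (k2 b) (k2 b') k0)]
        simp only [hdq q hq, hdx b hb, hdx b' hb']
      · intro q hq l hl b hb r hr
        rw [g11 _ (mem_keys (k1 q hq) (k2 l) (k2 b) (k2 r))]
        simp only [hdq q hq, hdx b hb, hdx l hl, hdx r hr]
  -- number of steps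
  have hlen : Poly (fun a => (inp a).length) :=
    (Poly.length (hinp (fun _ => 0))).congr fun a => by simp
  have hT : Poly (fun a => D * time.eval (inp a).length) :=
    Poly.mul (H83.Poly.const D) (Poly.polyEval time hlen)
  have hFP : Poly F := stp_poly hGC hG0 hG1 bl
  obtain ⟨b1, hb1, -, hb1'⟩ := hlen.size_le
  obtain ⟨b2, hb2, -, hb2'⟩ := hT.size_le
  have hbound : ∀ a, ∀ i, (F^[i] (st a)).1 ≤ Bd ∧ (∀ x ∈ (F^[i] (st a)).2, x ≤ Bd) ∧
      (F^[i] (st a)).2.length = (inp a).length + i := by
    intro a i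
    induction i with
    | zero =>
      refine ⟨?_, ?_, ?_⟩
      · have := hccB (M main, v₀); simp only [Function.iterate_zero, id, hst]; omega
      · intro x hx
        simp only [Function.iterate_zero, id, hst, List.mem_map] at hx
        obtain ⟨s, _, rfl⟩ := hx
        have := hcxB (inC (some s)); omega
      · simp [hst]
    | succ i ih =>
      rw [Function.iterate_succ_apply']
      refine ⟨gc2 _, ?_, ?_⟩
      · intro x hx
        simp only [hF, stp, List.mem_map] at hx
        obtain ⟨j, _, rfl⟩ := hx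
        cases decide (j = 0) with
        | true => exact g02 _
        | false => exact g12 _
      · simp only [hF, stp, List.length_map, List.length_range]
        rw [← hF, ih.2.2]
        omega
  have hit : Poly (fun a => F^[D * time.eval (inp a).length] (st a)) := by
    refine Poly.iterate hT hstP hFP
      (fun n => (2 * Bd + 1) + ((b1 n + b2 n) * (2 * Bd + 2) + 1) + 1)
      (((PB.const _).add (((hb1.add hb2).mul (PB.const _)).add (PB.const 1))).add (PB.const 1)) ?_
    intro a i hi
    obtain ⟨e1, e2, e3⟩ := hbound a i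
    have s1 : sz (F^[i] (st a)) = sz (F^[i] (st a)).1 + sz (F^[i] (st a)).2 + 1 := rfl
    rw [s1]
    have s2 := sz_le_of_bound Bd _ e2
    rw [e3] at s2
    have s3 : sz (F^[i] (st a)).1 ≤ 2 * Bd + 1 := by rw [Poly.sz_nat]; omega
    have s4 := hb1' a
    have s5 := hb2' a
    rw [Poly.sz_nat] at s4 s5
    have s6 : ((inp a).length + i) * (2 * Bd + 2) ≤ (b1 (sz a) + b2 (sz a)) * (2 * Bd + 2) :=
      Nat.mul_le_mul_right _ (by omega)
    beta_reduce
    omega
  -- output
  have hcell : ∀ {β : Type} [Enc β] {c : β → ℕ}, Poly c → Poly (fun b => (c b, 0, 0, 0)) :=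
    fun h => h.pair ((H83.Poly.const 0).pair ((H83.Poly.const 0).pair (H83.Poly.const 0)))
  have hfin : Poly (fun a => (List.range (F^[D * time.eval (inp a).length] (st a)).2.length).flatMap
      (fun i => bif decide (H1 (gt bl (F^[D * time.eval (inp a).length] (st a)).2 i, 0, 0, 0) = 1)
        then [decide (H2 (gt bl (F^[D * time.eval (inp a).length] (st a)).2 i, 0, 0, 0) = 1)]
        else [])) := by
    have hg : Poly (fun p : α × ℕ => gt bl (F^[D * time.eval (inp p.1).length] (st p.1)).2 p.2) :=
      gt_poly bl ((Poly.snd' hit).comp Poly.fst) Poly.snd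
    refine Poly.flatMap (Poly.range (Poly.length (Poly.snd' hit))) (Poly.cond
      (Poly.natEq (hH1.comp (hcell hg)) (H83.Poly.const 1))
      (Poly.cons (Poly.natEq (hH2.comp (hcell hg)) (H83.Poly.const 1)) (H83.Poly.const [])) (H83.Poly.const []))
  refine hfin.congr fun a => ?_
  obtain ⟨t, ht, v', S', hrun, hout⟩ := hM a
  obtain ⟨n', hn', hstep⟩ := ustep_of_halting M D hD t _ v' S' hrun
  have hn'T : n' ≤ D * time.eval (inp a).length := hn'.trans (Nat.mul_le_mul_left D ht)
  have hfinal : (ustep M)^[D * time.eval (inp a).length] (c0 a) = ⟨(.halt, v'), S'⟩ := by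
    have : D * time.eval (inp a).length = (D * time.eval (inp a).length - n') + n' := by omega
    rw [this, Function.iterate_add_apply]
    have e : conv M ⟨some main, v₀, Function.update (fun _ => []) k₀ (inp a)⟩ = c0 a := rfl
    rw [← e, hstep, ustep_halt]
  obtain ⟨-, r2, r3⟩ := hrep a (D * time.eval (inp a).length)
  have hg := (good_iterate (hgood a) (D * time.eval (inp a).length)).2
  rw [hfinal] at r2 r3 hg
  rw [← hout, ← flatMap_getElem? out (S' k₁) _ (r3 k₁)]
  refine congrArg (fun f => List.flatMap f (List.range _)) ?_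
  funext i
  have hmem : cell S' i ∈ CellSet M k₀ := hg i
  rw [r2 i, h11 _ (mem_keys (k2 _) k0 k0 k0), h21 _ (mem_keys (k2 _) k0 k0 k0)]
  simp only [hdx _ hmem]
  change (bif decide ((if ((S' k₁)[i]?).isSome then 1 else 0) = 1) then
    [decide ((match (S' k₁)[i]? with | some s => if out s then 1 else 0 | none => 0) = 1)]
    else []) = _
  cases (S' k₁)[i]? with
  | none => simp
  | some s => cases h : out s <;> simp [h]

end core

theorem poly_of_tm2 {α β : Type} [Enc α] {Γ₀ : Type} (ea : α → List Γ₀) (eb : β → List Bool)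
    (f : α → β) (hea : ∀ φ : Γ₀ → ℕ, Poly (fun a => (ea a).map φ))
    (h : TM2ComputableInPolyTime ea eb f) : Poly (fun a => eb (f a)) := by
  have := h.tm.kFin
  have := h.tm.ΛFin
  have := h.tm.σFin
  have := h.tm.Γk₀Fin
  have key := sim_core h.tm.m h.tm.k₀ h.tm.k₁ h.tm.main h.tm.initialState
    (fun a => (ea a).map h.inputAlphabet.invFun)
    (fun φ => (hea (fun s => φ (h.inputAlphabet.invFun s))).congr fun a => by
      simp [List.map_map, Function.comp_def])
    h.outputAlphabet (fun a => (eb (f a)).map h.outputAlphabet.invFun) h.time ?_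
  · refine key.congr fun a => ?_
    rw [List.map_map]
    have : (h.outputAlphabet : h.tm.Γ h.tm.k₁ → Bool) ∘ h.outputAlphabet.invFun = id := by
      funext s
      exact h.outputAlphabet.apply_symm_apply s
    rw [this, List.map_id]
  intro p
  obtain ⟨⟨st, e⟩, hle⟩ := h.outputsFun p
  refine ⟨st, by simpa using hle, h.tm.initialState, Function.update (fun _ => []) h.tm.k₁
      (List.map h.outputAlphabet.invFun (eb (f p))), ?_, by simp⟩
  have e1 : initList h.tm (List.map h.inputAlphabet.invFun (ea p)) =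
        (⟨some h.tm.main, h.tm.initialState, Function.update (fun _ => []) h.tm.k₀
          (List.map h.inputAlphabet.invFun (ea p))⟩ : TM2.Cfg h.tm.Γ h.tm.Λ h.tm.σ) :=
      congrArg (fun S => (⟨some h.tm.main, h.tm.initialState, S⟩ :
        TM2.Cfg h.tm.Γ h.tm.Λ h.tm.σ)) (by
        funext k
        by_cases hk : k = h.tm.k₀
        · subst hk; simp
        · simp [hk])
  have e2 : Option.map (haltList h.tm)
        (some (List.map h.outputAlphabet.invFun (eb (f p)))) =
        some (⟨none, h.tm.initialState, Function.update (fun _ => []) h.tm.k₁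
          (List.map h.outputAlphabet.invFun (eb (f p)))⟩ :
            TM2.Cfg h.tm.Γ h.tm.Λ h.tm.σ) :=
      congrArg (fun S => some (⟨none, h.tm.initialState, S⟩ :
        TM2.Cfg h.tm.Γ h.tm.Λ h.tm.σ)) (by
        funext k
        by_cases hk : k = h.tm.k₁
        · subst hk; simp
        · simp [hk])
  rw [e1, e2] at e
  exact e

end Pool.Agent.H43.TP
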